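import Pool.Agent.W619.X.Fin

/-! Non-vanishing for canonical divisors of projective manifolds birational to quotients of
(generically finite covers of) products of curves. -/

set_option autoImplicit false
set_option linter.overlappingInstances false

universe u

open FF IntermediateField Pool.Agent.W619.PQ Pool.Agent.W619.PL Pool.Agent.W619.TW
  Pool.Agent.W619.X

namespace Pool.Agent.Results.MP_813db1_ag.ProductQuotients

/-- Let `Z` be a projective variety of dimension `n` with function field `L`, `F i` (`i < n`) the
function fields of curves `C i` with rational maps `Z → C i` such that `Z → ∏ C i` is generically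
finite (`halg`), `G` a finite group of automorphisms of `L` preserving each `F i`, and `X` a
projective manifold birational to `Z / G`. Assume `NonnegCond`, for instance that each `g ≠ 1` in
`G` moves at least `6` of the curves, or that each `g ≠ 1` moves at least `2` of the curves and each
`C i / G` is irrational or has at least `4` branch points. If the curves are irrational, then `K_X`
is `ℚ`-effective. If `Z` is the product of the curves, then `K_X` is pseudo-effective if and only if
it is `ℚ`-effective, and if and only if all the curves are irrational. -/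
theorem result {L : Type u} [Field L] [Algebra ℂ L] (n : ℕ) (hn : Algebra.trdeg ℂ L = n)
    (F : Fin n → IntermediateField ℂ L) (hF : ∀ i, IsFF ℂ (F i))
    (halg : Algebra.IsAlgebraic ↥(⨆ i, F i) L)
    (G : Subgroup (L ≃ₐ[ℂ] L)) [Finite G] (hst : ∀ i, ∀ g ∈ G, ∀ z ∈ F i, g z ∈ F i)
    (h : NonnegCond G F) :
    ((∀ i, ¬ ∃ t : F i, ℂ⟮t⟯ = ⊤) → IsEff ℂ (fixedField G) n (fun _ => False)) ∧
    ((⨆ i, F i = ⊤) →
      (IsPsef ℂ (fixedField G) n (fun _ => False) ↔ IsEff ℂ (fixedField G) n (fun _ => False)) ∧
      (IsEff ℂ (fixedField G) n (fun _ => False) ↔ ∀ i, ¬ ∃ t : F i, ℂ⟮t⟯ = ⊤)) := by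
  have h1 := nvC n hn F hF halg G hst h
  exact ⟨h1.1, fun hsup => ⟨(h1.2 hsup).1, (h1.2 hsup).2.1⟩⟩

end Pool.Agent.Results.MP_813db1_ag.ProductQuotients
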